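import Pool.Agent.H97.PRP.Targets

/-!
# MP_e37c09_lc, row DDO of prp_modules: the capturing set is ordinal definable
-/

open Ordinal Cardinal Order Set
open scoped ZFSet

universe u

namespace Pool.Agent.H91.PRP

open _root_.HD HD.PRK HD.PRP

/-- the predicate about the sections -/
private def QQ (μ ρ : Ordinal.{u}) (F n Y : ZFSet.{u}) : Prop :=
  μ.toZFSet.IsOrdinal ∧ ρ.toZFSet.IsOrdinal ∧ n.IsOrdinal ∧
    PosX μ.toZFSet.rank ρ.toZFSet.rank (fun x => Agr F x n.rank {a | a.toZFSet ∈ Y})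

private theorem qq_dz (h0 : T_LOP.{u}) (μ ρ : Ordinal.{u}) :
    DZ.{u} fun v => QQ μ ρ (v 0) (v 1) (v 2) := by
  have a1 : DZ.{u} fun v => μ.toZFSet.IsOrdinal ∧ (v 0).IsOrdinal ∧ (v 2).IsOrdinal ∧
      PosX μ.toZFSet.rank (v 0).rank (fun x => Agr (v 1) x (v 2).rank {a | a.toZFSet ∈ v 3}) :=
    DZ.od (R := fun b v => b.IsOrdinal ∧ (v 0).IsOrdinal ∧ (v 2).IsOrdinal ∧
      PosX b.rank (v 0).rank (fun x => Agr (v 1) x (v 2).rank {a | a.toZFSet ∈ v 3}))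
      (OD.ordinal μ) h0.dz
  exact DZ.od (R := fun b v => μ.toZFSet.IsOrdinal ∧ b.IsOrdinal ∧ (v 1).IsOrdinal ∧
      PosX μ.toZFSet.rank b.rank (fun x => Agr (v 0) x (v 1).rank {a | a.toZFSet ∈ v 2}))
      (OD.ordinal ρ) a1

private theorem qq_iff (μ ρ n : Ordinal.{u}) (F Y : ZFSet.{u}) : QQ μ ρ F n.toZFSet Y ↔
    PosX μ ρ (fun x => Agr F x n {a | a.toZFSet ∈ Y}) := by
  unfold QQ
  rw [rank_toZFSet, rank_toZFSet, rank_toZFSet]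
  exact ⟨fun h => h.2.2.2, fun h => ⟨ZFSet.isOrdinal_toZFSet _, ZFSet.isOrdinal_toZFSet _,
    ZFSet.isOrdinal_toZFSet _, h⟩⟩

private theorem lim_iff (a : Ordinal.{u}) : IsSuccLimit a ↔ (∃ z, z ∈ a.toZFSet) ∧
    ∀ z ∈ a.toZFSet, ∃ z' ∈ a.toZFSet, z ∈ z' := by
  constructor
  · intro h
    refine ⟨⟨(0 : Ordinal.{u}).toZFSet, toZFSet_mem_toZFSet_iff.2 ?_⟩, fun z hz => ?_⟩
    · rw [Ordinal.isSuccLimit_iff] at h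
      exact pos_iff_ne_zero.2 h.1
    · obtain ⟨b, hb, rfl⟩ := mem_toZFSet_iff.1 hz
      exact ⟨(succ b).toZFSet, toZFSet_mem_toZFSet_iff.2 (h.succ_lt hb),
        toZFSet_mem_toZFSet_iff.2 (lt_succ b)⟩
  · rintro ⟨⟨z, hz⟩, h⟩
    obtain ⟨b, hb, rfl⟩ := mem_toZFSet_iff.1 hz
    rw [Ordinal.isSuccLimit_iff]
    refine ⟨(lt_of_le_of_lt zero_le hb).ne', ?_⟩
    rw [isSuccPrelimit_iff_succ_lt]
    intro c hc
    obtain ⟨z', hz', hcz⟩ := h c.toZFSet (toZFSet_mem_toZFSet_iff.2 hc)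
    obtain ⟨c', hc', rfl⟩ := mem_toZFSet_iff.1 hz'
    exact (succ_le_of_lt (toZFSet_mem_toZFSet_iff.1 hcz)).trans_lt hc'

/-- the predicate, at the level of sets -/
private def PZ (μ κ : Ordinal.{u}) (G k w Y : ZFSet.{u}) : Prop :=
  ∃ A ∈ k, ((∃ z, z ∈ A) ∧ ∀ z ∈ A, ∃ z' ∈ A, z ∈ z') ∧ (∀ z, z ∈ A ↔ ∃ y ∈ w, z ∈ y) ∧
    (∀ z ∈ Y, z ∈ A) ∧ ∃ J, (∀ z, z ∈ J ↔ z ∈ w ∧ z ∈ A) ∧ ∃ F, F = Fs κ G J ∧
      ∀ n ∈ A, QQ μ κ F n Y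

private theorem pz_iff (μ κ : Ordinal.{u}) (G w Y : ZFSet.{u}) :
    (∃ a < κ, IsSuccLimit a ∧ a.toZFSet = (ZFSet.sUnion w : ZFSet.{u}) ∧ Y ⊆ a.toZFSet ∧
      ∀ n < a, PosX μ κ fun y => Agr (Fs κ G (w ∩ a.toZFSet)) y n {b | b.toZFSet ∈ Y}) ↔
    PZ μ κ G κ.toZFSet w Y := by
  constructor
  · rintro ⟨a, ha, hl, hu, hY, hP⟩
    refine ⟨a.toZFSet, toZFSet_mem_toZFSet_iff.2 ha, (lim_iff a).1 hl, fun z => ?_,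
      fun z hz => hY hz, w ∩ a.toZFSet, fun z => ZFSet.mem_inter, _, rfl, fun n hn => ?_⟩
    · rw [hu, ZFSet.mem_sUnion]
    · obtain ⟨n, hn', rfl⟩ := mem_toZFSet_iff.1 hn
      exact (qq_iff μ κ n _ Y).2 (hP n hn')
  · rintro ⟨A, hA, hl, hu, hY, J, hJ, F, rfl, hP⟩
    obtain ⟨a, ha, rfl⟩ := mem_toZFSet_iff.1 hA
    have hJ' : J = w ∩ a.toZFSet := by
      ext z
      rw [hJ, ZFSet.mem_inter]
    subst hJ'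
    refine ⟨a, ha, (lim_iff a).2 hl, ?_, fun z hz => hY z hz, fun n hn => ?_⟩
    · ext z
      rw [hu, ZFSet.mem_sUnion]
    · exact (qq_iff μ κ n _ Y).1 (hP n.toZFSet (toZFSet_mem_toZFSet_iff.2 hn))

private theorem pz_dz (h0 : T_LOP.{u}) (h1 : T_FS.{u}) (μ κ : Ordinal.{u}) {G : ZFSet.{u}}
    (hG : OD G) : DZ.{u} fun v => PZ μ κ G (v 0) (v 1) (v 2) := by
  refine DZ.exMem (R := fun A v => ((∃ z, z ∈ A) ∧ ∀ z ∈ A, ∃ z' ∈ A, z ∈ z') ∧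
    (∀ z, z ∈ A ↔ ∃ y ∈ v 1, z ∈ y) ∧ (∀ z ∈ v 2, z ∈ A) ∧
    ∃ J, (∀ z, z ∈ J ↔ z ∈ v 1 ∧ z ∈ A) ∧ ∃ F, F = Fs κ G J ∧
      ∀ n ∈ A, QQ μ κ F n (v 2)) 0 ?_
  refine DZ.and (DZ.and (DZ.ex (DZ.mem 0 1)) (DZ.allMem 0 (DZ.exMem 1 (DZ.mem 1 0))))
    (DZ.and (DZ.all ((DZ.mem 0 1).iff (DZ.exMem 3 (DZ.mem 1 0))))
      (DZ.and (DZ.allMem 3 (DZ.mem 0 1)) ?_))
  refine DZ.ex (R := fun J v => (∀ z, z ∈ J ↔ z ∈ v 2 ∧ z ∈ v 0) ∧ ∃ F, F = Fs κ G J ∧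
      ∀ n ∈ v 0, QQ μ κ F n (v 3)) ?_
  refine DZ.and (DZ.all ((DZ.mem 0 1).iff ((DZ.mem 0 4).and (DZ.mem 0 2)))) ?_
  refine DZ.ex (R := fun F v => F = Fs κ G (v 0) ∧ ∀ n ∈ v 1, QQ μ κ F n (v 4)) ?_
  refine DZ.and (h1 κ G hG) ?_
  refine DZ.allMem (R := fun n v => QQ μ κ (v 0) n (v 5)) 2 ?_
  exact (qq_dz h0 μ κ).ren fun n => if n = 0 then 1 else if n = 1 then 0 else 6

private theorem po_dz (h0 : T_LOP.{u}) (h1 : T_FS.{u}) (μ κ : Ordinal.{u}) {G : ZFSet.{u}}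
    (hG : OD G) : DZ.{u} fun v => Po μ κ G (v 0) (v 1) := by
  obtain ⟨en, hen⟩ := HD.All.en.{u}
  refine DZ.and (hen.dzOD 0) ?_
  refine DZ.congr (P := fun v => PZ μ κ G κ.toZFSet (v 0) (v 1)) ?_
    fun v => pz_iff μ κ G (v 0) (v 1)
  exact DZ.od (R := fun k v => PZ μ κ G k (v 0) (v 1)) (OD.ordinal κ) (pz_dz h0 h1 μ κ hG)

theorem pf_DDO (h0 : HD.PRK.T_LOP.{u}) (h1 : T_FS.{u}) : T_DDO.{u} := by
  intro μ κ G hG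
  have hpow : OD (ZFSet.powerset κ.toZFSet) := by
    refine OD.of_mem (P := fun v => v 0 ⊆ κ.toZFSet) ?_ fun v => ?_
    · exact DZ.od (R := fun b v => v 0 ⊆ b) (OD.ordinal κ) (Loc.sub 1 0).dz
    · rw [ZFSet.mem_powerset]
  have hprod : OD (ZFSet.prod (ZFSet.powerset κ.toZFSet) (ZFSet.powerset κ.toZFSet)) :=
    OD.of_dz (DZ.od (R := fun b v => v 0 = ZFSet.prod b b) hpow (loc_prod 1 0 0).dz)
  refine Pool.Agent.H45.NF.od_sep hprod ?_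
  refine DZ.ex (R := fun w v => ∃ Y, v 0 = ZFSet.pair w Y ∧ Po μ κ G w Y) ?_
  refine DZ.ex (R := fun Y v => v 1 = ZFSet.pair (v 0) Y ∧ Po μ κ G (v 0) Y) ?_
  refine DZ.and (loc_pair 2 1 0).dz ?_
  exact (po_dz h0 h1 μ κ hG).ren fun n => if n = 0 then 1 else 0

end Pool.Agent.H91.PRP
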